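import Pool.Agent.W313.BMX.Final
import Pool.Agent.W262.TW.Full
import Pool.Agent.W262.TW.Ex3

/-!
# The Brauer-Manin set of almost all twists of superelliptic curves of even degree is empty

Let `f k ∈ ℤ[x]` be irreducible over `ℚ`, of even degrees, pairwise non-associated, and let `F k`
be their homogenisations. For all squarefree `d`, `|d| ≤ X`, with at most `C X (log X)^(-δ)`
exceptions, and for all even `n` dividing the sum of the degrees, every adelic point of the curve
`C : d y ^ n = ∏ k, F k (x, w)` over `ℚ` is obstructed by one of the classes `(F k, e)`, `e` a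
nonzero integer, of the Brauer group of the curve.
-/

set_option autoImplicit false

namespace Pool.Agent.Results.MP_ab3ecb_nt.SuperellipticTwists

open Finset Polynomial Pool.Agent.W313.BMX

section defs

variable {K : Type} [Fintype K] [DecidableEq K]

/-- A point over `F` of the curve `d * y ^ n = ∏ k, f k (x, w)` in a weighted projective plane. -/
structure CoverPoint (f : K → ℤ[X]) (d : ℤ) (n : ℕ) (F : Type) [Field F] where
  /-- the first coordinate -/
  x : F
  /-- the second coordinate -/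
  w : F
  /-- the third coordinate -/
  y : F
  ne : x ≠ 0 ∨ w ≠ 0
  eq : (d : F) * y ^ n = ∏ k, homog (f k) x w

/-- An adelic point of the curve `d * y ^ n = ∏ k, f k (x, w)`. -/
structure AdelicCoverPoint (f : K → ℤ[X]) (d : ℤ) (n : ℕ) where
  /-- the real component -/
  re : CoverPoint f d n ℝ
  /-- the `p`-adic components -/
  pa : ∀ p : Nat.Primes, CoverPoint f d n ℚ_[(p : ℕ)]

open Classical in
/-- The value of the `k`-th factor at a point, modulo squares; at a zero of the `k`-th factor it is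
computed from the other factors. -/
noncomputable def coverValue {f : K → ℤ[X]} {d : ℤ} {n : ℕ} {F : Type} [Field F]
    (P : CoverPoint f d n F) (k : K) : F :=
  if homog (f k) P.x P.w ≠ 0 then homog (f k) P.x P.w
  else d * ∏ l ∈ univ.erase k, homog (f l) P.x P.w

/-- The adelic point is orthogonal to the classes `(f k, e)` of the Brauer group: the number of the
places at which the value of the class is not trivial is even, the sum of the invariants is zero. -/
def OrthogonalCover {f : K → ℤ[X]} {d : ℤ} {n : ℕ} (P : AdelicCoverPoint f d n) : Prop :=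
  ∀ (k : K) (e : ℤ), e ≠ 0 →
    Even (ram ⟨coverValue P.re k, fun p => coverValue (P.pa p) k⟩ e).ncard

/-- the image on the hyperelliptic curve -/
def CoverPoint.image {f : K → ℤ[X]} {d : ℤ} {n : ℕ} (hn : Even n) {F : Type} [Field F]
    (P : CoverPoint f d n F) : Point f d F :=
  ⟨P.x, P.w, P.y ^ (n / 2), P.ne, by
    rw [← P.eq, ← pow_mul, Nat.div_mul_cancel hn.two_dvd]⟩

end defs

/-- The polynomials `X² - 13`, `(X - 1)² - 17`, `(X - 2)² - 221`. -/
noncomputable def ex : Fin 3 → ℤ[X] := ![X ^ 2 - 13, (X - 1) ^ 2 - 17, (X - 2) ^ 2 - 221]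

theorem result :
    (∀ (K : Type) [Fintype K] [DecidableEq K] (f : K → ℤ[X]), Admissible f →
      (∃ δ : ℝ, 0 < δ ∧ ∃ C : ℝ, ∀ X : ℕ, 3 ≤ X →
        ({d : ℤ | d.natAbs ≤ X ∧ Squarefree d ∧ ∃ n : ℕ, Even n ∧ n ∣ ∑ k, (f k).natDegree ∧
          ∃ P : AdelicCoverPoint f d n, OrthogonalCover P}.ncard : ℝ) ≤
          C * X * (Real.log X) ^ (-δ)) ∧
      ∀ (d : ℤ) (n : ℕ), d ≠ 0 → Even n → ∀ (P : AdelicCoverPoint f d n) (k : K) (e : ℤ), e ≠ 0 →
        (ram ⟨coverValue P.re k, fun p => coverValue (P.pa p) k⟩ e).Finite) ∧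
    (Admissible ex ∧ ∀ (d : ℤ) (n : ℕ), n ≠ 0 → Nonempty (AdelicCoverPoint ex d n)) := by
  refine ⟨fun K _ _ f hf => ⟨?_, fun d n hd hn P k e he => ?_⟩, ?_, ?_⟩
  · obtain ⟨δ, hδ, C, hC⟩ := Pool.Agent.W262.TW.fin3_all K f hf.1 hf.2.1 hf.2.2
    refine ⟨δ, hδ, C, fun X hX => ?_⟩
    refine le_trans ?_ (hC X hX)
    have hfinS : {d : ℤ | d.natAbs ≤ X ∧ Squarefree d ∧ Pool.Agent.W262.TW.Sel f d}.Finite := by
      apply (Set.finite_Icc (-(X : ℤ)) X).subset
      intro d hd
      have h1 : d.natAbs ≤ X := hd.1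
      rw [Set.mem_Icc]
      omega
    refine Nat.cast_le.2 (Set.ncard_le_ncard ?_ hfinS)
    rintro d ⟨h1, h2, n, hn, -, P, hP⟩
    exact ⟨h1, h2, sel f hf d h2.ne_zero ⟨P.re.image hn, fun p => (P.pa p).image hn⟩ hP⟩
  · exact finite_ f hf d hd ⟨P.re.image hn, fun p => (P.pa p).image hn⟩ k e he
  · refine ⟨Pool.Agent.W262.TW.ex_irr, fun k => ?_, Pool.Agent.W262.TW.ex_ass⟩
    rw [show (ex k).natDegree = 2 from Pool.Agent.W262.TW.ex_natDegree k]
    exact even_two
  · intro d n hn
    obtain ⟨⟨x, w, y, h1, h2⟩, h3⟩ := Pool.Agent.W262.TW.ex_loc 0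
    choose x' w' y' h4 h5 using fun p : Nat.Primes => h3 (p : ℕ)
    refine ⟨⟨⟨x, w, 0, h1, ?_⟩, fun p => ⟨x' p, w' p, 0, h4 p, ?_⟩⟩⟩
    · rw [zero_pow hn, mul_zero]
      rw [Int.cast_zero, zero_mul] at h2
      exact h2
    · rw [zero_pow hn, mul_zero]
      have h6 := h5 p
      rw [Int.cast_zero, zero_mul] at h6
      exact h6

end Pool.Agent.Results.MP_ab3ecb_nt.SuperellipticTwists
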